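import Pool.Agent.H30KAM.Init

/-!
The quadratic Henon map `(x, y) -> (y, x + y ^ 2)` has a Herman ring.
-/

set_option autoImplicit false

namespace Pool.Agent.Results.MP_68f9d6_an.HermanRing

/-- the Henon map -/
def H (p : ℂ × ℂ) : ℂ × ℂ := (p.2, p.1 + p.2 ^ 2)

/-- `H` has a Herman ring with rotation number `θ`: on a strip `|Im z| < h` there is a
non-constant holomorphic map `φ` of period one, that is a map on the cylinder, that conjugates an
iterate of `H` to the translation by `θ` -/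
def HasHermanRing (θ : ℝ) : Prop :=
  ∃ h : ℝ, 0 < h ∧ ∃ φ : ℂ → ℂ × ℂ, ∃ n : ℕ, 2 ≤ n ∧
    DifferentiableOn ℂ φ {z | |z.im| < h} ∧
    (∀ z : ℂ, |z.im| < h → φ (z + 1) = φ z) ∧
    (∃ z w : ℂ, |z.im| < h ∧ |w.im| < h ∧ φ z ≠ φ w) ∧
    ∀ z : ℂ, |z.im| < h → H^[n] (φ z) = φ (z + θ)

open Pool.Agent.H30KAM Complex Real

theorem S_le : Sc 102 (9 / 4) (1 / 55) ≤ 37 := by
  have he := Real.exp_one_gt_d9
  unfold Sc
  have h1 : (9 / 4 : ℝ) / (Real.exp 1 * (1 / 55)) ≤ 46 := by
    rw [div_le_iff₀ (by positivity)]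
    norm_num at he ⊢
    linarith
  linarith

theorem D_le : Dc (1 / 55) ≤ 128 := by
  have he := Real.exp_one_gt_d9
  have hp := Real.pi_lt_d4
  unfold Dc
  rw [div_le_iff₀ (by positivity)]
  norm_num at he hp ⊢
  linarith

theorem Cv_bound : Cv 2.64 13.7 5.12 3.13 (Sc 102 (9 / 4) (1 / 55)) ≤ 1e7 := by
  refine (Cv_le (by norm_num) (by norm_num) (by norm_num) (by norm_num)
    (Sc_nonneg (by norm_num) (by norm_num) (by norm_num)) S_le).trans ?_
  unfold Cv
  norm_num

theorem Cv_nn : 0 ≤ Cv 2.64 13.7 5.12 3.13 (Sc 102 (9 / 4) (1 / 55)) :=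
  Cv_nonneg (by norm_num) (by norm_num) (by norm_num) (by norm_num)
    (Sc_nonneg (by norm_num) (by norm_num) (by norm_num))

theorem Cu_bound : Cu 2.64 13.7 5.12 3.13 (Sc 102 (9 / 4) (1 / 55)) ≤ 3e7 := by
  have := Cv_bound
  unfold Cu
  norm_num at this ⊢
  linarith

theorem Cu_nn : 0 ≤ Cu 2.64 13.7 5.12 3.13 (Sc 102 (9 / 4) (1 / 55)) :=
  mul_nonneg (by norm_num) Cv_nn

theorem Cw_bound : Cw 2.64 13.7 5.12 3.13 (Sc 102 (9 / 4) (1 / 55)) ≤ 1e9 := by
  have := Cu_bound
  unfold Cw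
  norm_num at this ⊢
  linarith

theorem Cw_nn : 0 ≤ Cw 2.64 13.7 5.12 3.13 (Sc 102 (9 / 4) (1 / 55)) := by
  have := Cu_nn
  unfold Cw
  apply mul_nonneg _ (by norm_num)
  linarith

theorem E2_bound : E2 2.64 8.32 13.7 5.12 3.13 (Sc 102 (9 / 4) (1 / 55)) (Dc (1 / 55)) ≤
    1e16 := by
  have h1 := Cv_bound
  have h2 := Cu_bound
  have h3 := Cv_nn
  have h4 := Cu_nn
  have h5 := D_le
  have h6 : 0 ≤ Dc (1 / 55) := Dc_nonneg (by norm_num)
  unfold E2
  have a1 : Dc (1 / 55) * 13.7 * 8.32 ≤ 128 * 13.7 * 8.32 := by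
    apply mul_le_mul_of_nonneg_right (mul_le_mul_of_nonneg_right h5 (by norm_num)) (by norm_num)
  have a2 : Cv 2.64 13.7 5.12 3.13 (Sc 102 (9 / 4) (1 / 55)) *
      (Dc (1 / 55) + (Dc (1 / 55) * 13.7 + Dc (1 / 55) * 13.7)) ≤
      1e7 * (128 + (128 * 13.7 + 128 * 13.7)) := by
    apply mul_le_mul h1 _ _ (by norm_num)
    · norm_num at h5 ⊢
      linarith
    · positivity
  have a3 : Cu 2.64 13.7 5.12 3.13 (Sc 102 (9 / 4) (1 / 55)) ^ 2 ≤ (3e7) ^ 2 :=
    pow_le_pow_left₀ h4 h2 2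
  refine (add_le_add (add_le_add a1 a2) a3).trans ?_
  norm_num

theorem m0_gt : 6 * (1 / 55) < m0 := by
  unfold m0
  have h := Real.one_sub_inv_le_log_of_pos (show (0 : ℝ) < 9 / 8 by norm_num)
  norm_num at h ⊢
  linarith

theorem two_sh : 2 * sh = th := by
  unfold sh
  ring

theorem hyp : Hyp sh 102 (9 / 4) m0 (1 / 55) 2.64 8.32 13.7 5.12 3.13 1e-21 1e-6 f0 G0 where
  hA := by norm_num
  hB := by norm_num
  dio := by
    rw [two_sh]
    exact dio_th (by norm_num) (by norm_num) (by norm_num)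
  hδ := by norm_num
  hμ := m0_gt
  hP := by norm_num
  hPm := by norm_num
  hΓ := by norm_num
  hN := by norm_num
  hT := by norm_num
  hε := by norm_num
  hη := by norm_num
  nice := nice0
  c1 := by
    have h := pow_le_pow_left₀ Cw_nn Cw_bound 2
    norm_num at h ⊢
    linarith
  c2 := by
    have h := E2_bound
    norm_num at h ⊢
    linarith
  c3 := by
    have h : Dc (1 / 55) * Cu 2.64 13.7 5.12 3.13 (Sc 102 (9 / 4) (1 / 55)) ≤ 128 * 3e7 :=
      mul_le_mul D_le Cu_bound Cu_nn (by norm_num)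
    norm_num at h ⊢
    linarith
  c4 := by
    have h := Cw_bound
    norm_num at h ⊢
    linarith
  c5 := by
    have h := Cu_bound
    norm_num at h ⊢
    linarith

theorem W_periodic {μ M : ℝ} {F : ℂ → ℂ} (h : W μ M F) {z : ℂ} (hz : z ∈ V μ) :
    F (z + 1) = F z := by
  obtain ⟨a, ha, _⟩ := h
  have h1 := ha.eq z hz
  have hz' : z + ((1 : ℝ) : ℂ) ∈ V μ := add_real_mem_V hz 1
  rw [Complex.ofReal_one] at hz'
  have h2 := ha.eq (z + 1) hz'
  simp only [ek_add_right, ek_one, mul_one] at h2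
  exact h2.unique h1

theorem th_eq : th = 2 / (99 + √5) := by
  have h1 := Xr_pos
  have h2 : 0 < 99 + √5 := by positivity
  unfold th
  rw [div_eq_div_iff h1.ne' h2.ne']
  unfold Xr
  ring

/-- The map `(x, y) -> (y, x + y ^ 2)` has a Herman ring, with rotation number
`2 / (99 + √5)`. -/
theorem result : Irrational (2 / (99 + √5)) ∧ HasHermanRing (2 / (99 + √5)) := by
  rw [← th_eq]
  refine ⟨irrational_th, ?_⟩
  obtain ⟨f, G, ⟨Rf', hf⟩, ⟨RG, hG⟩, heq, hcl⟩ := kam hyp ⟨_, f0_W⟩ ⟨_, G0_W⟩ er1_f0 er2_f0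
  set ν : ℝ := m0 - 6 * (1 / 55) with hν
  have hν0 : 0 < ν := sub_pos.2 m0_gt
  have hpi := Real.pi_pos
  have hV : ∀ z : ℂ, |z.im| < ν / (2 * π) → z ∈ V ν := by
    intro z hz
    rw [lt_div_iff₀ (by positivity)] at hz
    show 2 * π * |z.im| < ν
    linarith
  have hsh : (2 * (sh : ℂ)) = (th : ℂ) := by
    rw [← two_sh]
    push_cast
    ring
  have h0 : (0 : ℂ) ∈ V ν := by
    have := real_mem_V hν0 0
    simpa using this
  have h0V : (0 : ℂ) ∈ V m0 := V_mono (by rw [hν]; norm_num) h0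
  refine ⟨ν / (2 * π), by positivity, fun z => (f (z - sh), G z), 2, le_rfl, ?_, ?_, ?_, ?_⟩
  · intro z hz
    have hz' := hV z hz
    apply DifferentiableAt.differentiableWithinAt
    apply DifferentiableAt.prodMk
    · have h1 := (hasDerivAt_shift_sub (hf.differentiableAt (sub_real_mem_V hz' sh)))
      exact h1.differentiableAt
    · exact hG.differentiableAt hz'
  · intro z hz
    have hz' := hV z hz
    have h1 := W_periodic hf (sub_real_mem_V hz' sh)
    have h2 := W_periodic hG hz'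
    have e : z + 1 - (sh : ℂ) = z - sh + 1 := by ring
    simp only [e, h1, h2]
  · -- non-constant
    by_contra hcon
    push Not at hcon
    have hconst : ∀ z ∈ V ν, G z = G 0 ∧ f (z - sh) = f (0 - sh) := by
      intro z hz
      have hz' : |z.im| < ν / (2 * π) := by
        rw [lt_div_iff₀ (by positivity)]
        have : 2 * π * |z.im| < ν := hz
        linarith
      have h1 := hcon z 0 hz' (by simp; positivity)
      rw [Prod.mk.injEq] at h1
      exact ⟨h1.2, h1.1⟩
    have hpV := add_real_mem_V h0 sh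
    have hmV := sub_real_mem_V h0 sh
    have g1 := (hconst _ hpV).1
    have g2 := (hconst _ hmV).1
    have hp2V := add_real_mem_V hpV sh
    have f1 := (hconst _ hp2V).2
    have f2 := (hconst _ h0).2
    have e1 := (heq 0 h0).1
    have e0 : (0 : ℂ) + sh + sh - sh = 0 + sh := by ring
    rw [e0] at f1
    unfold er1 at e1
    rw [f1, sub_self, zero_sub, neg_eq_zero] at e1
    have hG0 : G 0 = 0 := by
      simpa using e1
    have h3 := hcl 0 h0
    rw [hG0, zero_sub, norm_neg] at h3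
    have h4 := r1_W.norm_le h0V
    have h5 := CGf_W.norm_le h0V
    have h6 : ‖CGf 0 * (2 * G0 0)‖ ≤ 13.66 * (2 * 1e-6) := by
      rw [norm_mul, norm_mul]
      apply mul_le_mul h5 _ (by positivity) (by norm_num)
      rw [Complex.norm_ofNat]
      linarith
    have h7 : (1 : ℝ) ≤ ‖1 - CGf 0 * (2 * G0 0)‖ + ‖CGf 0 * (2 * G0 0)‖ := by
      have := norm_add_le (1 - CGf 0 * (2 * G0 0)) (CGf 0 * (2 * G0 0))
      simpa using this
    norm_num at h4 h6 h7
    linarith
  · intro z hz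
    have hz' := hV z hz
    have hp := add_real_mem_V hz' sh
    have e1 := (heq z hz').1
    have e2 := (heq _ hp).2
    unfold er1 at e1
    unfold er2 at e2
    have a1 : z + (sh : ℂ) - sh = z := by ring
    have a2 : z + (sh : ℂ) + sh = z + th := by rw [← hsh]; ring
    have a3 : z + (th : ℂ) - sh = z + sh := by rw [← hsh]; ring
    rw [a1, a2] at e2
    show H (H (f (z - sh), G z)) = (f (z + th - sh), G (z + th))
    unfold H
    rw [a3]
    have b1 : f (z - sh) + G z ^ 2 = f (z + sh) := by linear_combination -e1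
    simp only [b1]
    have b2 : G z + f (z + sh) ^ 2 = G (z + th) := by linear_combination -e2
    rw [b2]

end Pool.Agent.Results.MP_68f9d6_an.HermanRing
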